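import Pool.Agent.H8.TD.Targets
import Pool.Agent.H18.HIT.PN

/-! Row RED: the reduced lifts of the iterates. -/

set_option autoImplicit false

open MvPolynomial
open Pool.Agent.H12.ZD (pmap v O Res DenseOrbit NoInv)
open Pool.Agent.H18.HIT
open Pool.Agent.H8.ZA (HFam Const NA sz)
open Pool.Agent.H8.TD

namespace Pool.Agent.H39.TD

section homog

variable {K σ : Type} [Field K]

/-- the polynomial `p (t X)` -/
noncomputable def tt : MvPolynomial σ K →ₐ[K] Polynomial (MvPolynomial σ K) :=
  aeval fun i => Polynomial.C (X i) * Polynomial.X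

theorem tt_monomial (s : σ →₀ ℕ) (c : K) :
    tt (monomial s c) = Polynomial.C (monomial s c) * Polynomial.X ^ s.degree := by
  unfold tt
  rw [aeval_monomial]
  have h1 : (algebraMap K (Polynomial (MvPolynomial σ K))) c = Polynomial.C (C c) := by
    rw [IsScalarTower.algebraMap_apply K (MvPolynomial σ K) (Polynomial (MvPolynomial σ K)),
      Polynomial.algebraMap_apply, Algebra.algebraMap_self, RingHom.id_apply,
      MvPolynomial.algebraMap_eq]
  rw [h1, Finsupp.prod]
  simp only [mul_pow, Finset.prod_mul_distrib, Finset.prod_pow_eq_pow_sum]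
  rw [monomial_eq, Finsupp.prod, Polynomial.C_mul, map_prod]
  simp only [Polynomial.C_pow]
  rw [mul_assoc]
  rfl

theorem coeff_tt (p : MvPolynomial σ K) (m : ℕ) :
    (tt p).coeff m = homogeneousComponent m p := by
  conv_lhs => rw [p.as_sum, map_sum]
  rw [Polynomial.finsetSum_coeff, homogeneousComponent_apply, Finset.sum_filter]
  refine Finset.sum_congr rfl fun s _ => ?_
  rw [tt_monomial, Polynomial.coeff_C_mul, Polynomial.coeff_X_pow]
  by_cases h : m = s.degree
  · rw [if_pos h, if_pos h.symm, mul_one]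
  · rw [if_neg h, if_neg (Ne.symm h), mul_zero]

theorem tt_ne {p : MvPolynomial σ K} (hp : p ≠ 0) : tt p ≠ 0 := by
  intro h
  apply hp
  rw [← sum_homogeneousComponent p]
  refine Finset.sum_eq_zero fun i _ => ?_
  rw [← coeff_tt, h, Polynomial.coeff_zero]

/-- divisors of forms are forms -/
theorem homog_mul {p q : MvPolynomial σ K} {a : ℕ} (hG : (p * q).IsHomogeneous a)
    (hp : p ≠ 0) (hq : q ≠ 0) :
    ∃ b c : ℕ, b + c = a ∧ p.IsHomogeneous b ∧ q.IsHomogeneous c := by
  have hG1 : tt (p * q) = Polynomial.C (p * q) * Polynomial.X ^ a := by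
    ext1 m
    rw [coeff_tt, Polynomial.coeff_C_mul, Polynomial.coeff_X_pow,
      homogeneousComponent_of_mem ((mem_homogeneousSubmodule a _).2 hG)]
    by_cases h : m = a
    · rw [if_pos h, if_pos h, mul_one]
    · rw [if_neg h, if_neg h, mul_zero]
  rw [map_mul] at hG1
  have h1 : (tt p).natDegree + (tt q).natDegree = a := by
    rw [← Polynomial.natDegree_mul (tt_ne hp) (tt_ne hq), hG1,
      Polynomial.natDegree_C_mul_X_pow _ _ (mul_ne_zero hp hq)]
  have h2 : (tt p).natTrailingDegree + (tt q).natTrailingDegree = a := by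
    rw [← Polynomial.natTrailingDegree_mul (tt_ne hp) (tt_ne hq), hG1,
      Polynomial.natTrailingDegree_mul_X_pow (by
        rw [Ne, Polynomial.C_eq_zero]; exact mul_ne_zero hp hq), Polynomial.natTrailingDegree_C,
      zero_add]
  have h3 := Polynomial.natTrailingDegree_le_natDegree (tt p)
  have h4 := Polynomial.natTrailingDegree_le_natDegree (tt q)
  have key : ∀ r : MvPolynomial σ K, (tt r).natTrailingDegree = (tt r).natDegree →
      r.IsHomogeneous (tt r).natDegree := by
    intro r hr
    have h5 : homogeneousComponent (tt r).natDegree r = r := by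
      conv_rhs => rw [← sum_homogeneousComponent r]
      by_cases h0 : (tt r).natDegree ∈ Finset.range (r.totalDegree + 1)
      · rw [Finset.sum_eq_single_of_mem _ h0]
        intro m _ hm
        rw [← coeff_tt]
        rcases lt_or_gt_of_ne hm with h | h
        · exact Polynomial.coeff_eq_zero_of_lt_natTrailingDegree (by omega)
        · exact Polynomial.coeff_eq_zero_of_natDegree_lt h
      · rw [Finset.mem_range, not_lt] at h0
        rw [homogeneousComponent_eq_zero _ _ (by omega)]
        symm
        refine Finset.sum_eq_zero fun m hm => ?_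
        rw [Finset.mem_range] at hm
        rw [← coeff_tt]
        exact Polynomial.coeff_eq_zero_of_lt_natTrailingDegree (by omega)
    rw [← h5]
    have := homogeneousComponent_isHomogeneous (tt r).natDegree r
    rwa [h5] at this ⊢
  exact ⟨_, _, h1, key p (by omega), key q (by omega)⟩

end homog

section red

variable {k : Type} [Field k]

/-- irreducible polynomials have positive degree -/
theorem irr_deg {N : ℕ} {P : Po N k} (hP : Irreducible P) : 1 ≤ P.totalDegree := by
  by_contra h
  have h0 : P.totalDegree = 0 := by omega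
  rw [totalDegree_eq_zero_iff_eq_C] at h0
  apply hP.not_isUnit
  rw [h0]
  refine (isUnit_iff_ne_zero.2 ?_).map C
  intro hc
  rw [hc, C_0] at h0
  exact hP.ne_zero h0

/-- division by the greatest common divisor -/
theorem exists_cop {N M : ℕ} (i₀ : Fin M) (D : ℕ) : ∀ T : Fin M → Po N k, T i₀ ≠ 0 →
    (T i₀).totalDegree ≤ D → ∃ (h : Po N k) (G : Fin M → Po N k), (∀ i, T i = h * G i) ∧
      Cop G := by
  induction D with
  | zero =>
    intro T hT hD
    refine ⟨1, T, fun i => (one_mul _).symm, ?_⟩
    intro P hP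
    refine ⟨i₀, ?_⟩
    rintro ⟨Q, hQ⟩
    have hQ0 : Q ≠ 0 := by
      rintro rfl
      exact hT (by rw [hQ, mul_zero])
    have h1 := irr_deg hP
    have h2 := totalDegree_mul_of_isDomain hP.ne_zero hQ0
    rw [← hQ] at h2
    omega
  | succ D ih =>
    intro T hT hD
    by_cases hc : Cop T
    · exact ⟨1, T, fun i => (one_mul _).symm, hc⟩
    · unfold Cop at hc
      push Not at hc
      obtain ⟨P, hP, hdvd⟩ := hc
      choose T' hT' using hdvd
      have hT'0 : T' i₀ ≠ 0 := by
        intro h
        exact hT (by rw [hT' i₀, h, mul_zero])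
      have h1 := irr_deg hP
      have h2 := totalDegree_mul_of_isDomain hP.ne_zero hT'0
      rw [← hT' i₀] at h2
      obtain ⟨h, G, hG, hcop⟩ := ih T' hT'0 (by omega)
      exact ⟨P * h, G, fun i => by rw [hT' i, hG i, mul_assoc], hcop⟩

/-- a common divisor of the multiples of a reduced tuple -/
theorem dvd_of_cop {N M : ℕ} {G : Fin M → Po N k} (hG : Cop G) (H : Po N k) :
    H ≠ 0 → ∀ h : Po N k, (∀ i, H ∣ h * G i) → H ∣ h := by
  refine UniqueFactorizationMonoid.induction_on_prime H (fun h => absurd rfl h) ?_ ?_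
  · intro u hu _ h _
    exact hu.dvd
  · intro a p ha hp ih _ h hdvd
    obtain ⟨i, hi⟩ := hG p hp.irreducible
    have h1 : p ∣ h * G i := (dvd_mul_right p a).trans (hdvd i)
    obtain ⟨h', rfl⟩ := (hp.dvd_or_dvd h1).resolve_right hi
    refine mul_dvd_mul_left p (ih ha h' fun j => ?_)
    have h2 := hdvd j
    rw [mul_assoc] at h2
    exact (mul_dvd_mul_iff_left hp.ne_zero).1 h2

theorem pf_RED : T_RED := by
  intro k _ F d hd hF hinj
  have hinjn := fun n => aeval_it_injective hinj n
  have hne : ∀ n i, it F n i ≠ 0 := by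
    intro n i h
    have h1 : aeval (it F n) (X i : Po 4 k) = aeval (it F n) (0 : Po 4 k) := by
      rw [aeval_X, h, map_zero]
    exact X_ne_zero i (hinjn n h1)
  have hex : ∀ n, ∃ (h : Po 4 k) (G : Tup 4 k), (∀ i, it F n i = h * G i) ∧ Cop G := fun n =>
    exists_cop 0 _ (it F n) (hne n 0) le_rfl
  choose h G hG hcop using hex
  have hh0 : ∀ n, h n ≠ 0 := by
    intro n h0
    apply hne n 0
    rw [hG n 0, h0, zero_mul]
  have hG0 : ∀ n i, G n i ≠ 0 := by
    intro n i h0
    apply hne n i
    rw [hG n i, h0, mul_zero]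
  have hhom : ∀ n i, (G n i).IsHomogeneous (d ^ n - (h n).totalDegree) ∧
      (h n).totalDegree + (d ^ n - (h n).totalDegree) = d ^ n := by
    intro n i
    have h1 : (h n * G n i).IsHomogeneous (d ^ n) := by
      rw [← hG n i]
      exact it_hom hF n i
    obtain ⟨b, c, hbc, hb, hc⟩ := homog_mul h1 (hh0 n) (hG0 n i)
    have h2 := hb.totalDegree (hh0 n)
    have h3 : d ^ n - (h n).totalDegree = c := by omega
    rw [h3]
    exact ⟨hc, by omega⟩
  refine ⟨G, fun n => d ^ n - (h n).totalDegree, fun n i => (hhom n i).1, hcop,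
    fun n => ⟨h n, hG n⟩, ?_, ?_⟩
  · intro n
    by_contra hlt
    have h0 : d ^ n - (h n).totalDegree = 0 := Nat.eq_zero_of_not_pos hlt
    have hC : ∀ i, ∃ c : k, c ≠ 0 ∧ G n i = C c := by
      intro i
      have h1 := (hhom n i).1
      rw [h0] at h1
      have h2 := h1.totalDegree (hG0 n i)
      rw [totalDegree_eq_zero_iff_eq_C] at h2
      refine ⟨_, ?_, h2⟩
      intro hc
      rw [hc, C_0] at h2
      exact hG0 n i h2
    obtain ⟨c0, hc0, e0⟩ := hC 0
    obtain ⟨c1, hc1, e1⟩ := hC 1
    have h1 : aeval (it F n) (C c1 * X 0 : Po 4 k) = aeval (it F n) (C c0 * X 1 : Po 4 k) := by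
      rw [map_mul, map_mul, aeval_X, aeval_X, aeval_C, aeval_C, hG n 0, hG n 1, e0, e1,
        algebraMap_eq]
      ring
    have h2 := hinjn n h1
    have h3 := congrArg (coeff (Finsupp.single 0 1)) h2
    have ha : coeff (Finsupp.single 0 1) (X 0 : Po 4 k) = 1 := by
      rw [coeff_X, if_pos rfl]
    have hb : coeff (Finsupp.single 0 1) (X 1 : Po 4 k) = 0 := by
      rw [coeff_X, if_neg]
      intro h4
      have := Finsupp.single_left_injective (one_ne_zero) h4
      exact absurd this (by decide)
    rw [coeff_C_mul, coeff_C_mul, ha, hb, mul_one, mul_zero] at h3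
    exact hc1 h3
  · intro m n
    set Q : Fin 4 → Po 4 k := fun i => aeval (G n) (G m i) with hQ
    set H : Po 4 k := aeval (it F n) (h m) * h n ^ (d ^ m - (h m).totalDegree) with hH
    have e1 : ∀ i, it F (m + n) i = H * Q i := by
      intro i
      rw [it_add]
      have e2 : comp (it F m) (it F n) i = aeval (it F n) (it F m i) := rfl
      have e3 : (it F n : Tup 4 k) = fun j => h n * G n j := by
        funext j
        exact hG n j
      rw [e2, hG m i, map_mul, hH, hQ]
      rw [mul_assoc]
      congr 1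
      rw [e3]
      exact aeval_mul_of_hom (hhom m i).1 (h n) (G n)
    have hH0 : H ≠ 0 := by
      intro h0
      apply hne (m + n) 0
      rw [e1, h0, zero_mul]
    have hQ0 : Q 0 ≠ 0 := by
      intro h0
      apply hne (m + n) 0
      rw [e1, h0, mul_zero]
    have hdvd : H ∣ h (m + n) := by
      refine dvd_of_cop (hcop (m + n)) H hH0 _ fun i => ?_
      rw [← hG (m + n) i, e1 i]
      exact dvd_mul_right _ _
    obtain ⟨H', hH'⟩ := hdvd
    have hH'0 : H' ≠ 0 := by
      rintro rfl
      exact hh0 (m + n) (by rw [hH', mul_zero])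
    have d1 := totalDegree_mul_of_isDomain hH0 hH'0
    rw [← hH'] at d1
    have d2 := totalDegree_mul_of_isDomain hH0 hQ0
    rw [← e1 0, (it_hom hF (m + n) 0).totalDegree (hne (m + n) 0)] at d2
    have hQh : (Q 0).IsHomogeneous ((d ^ n - (h n).totalDegree) * (d ^ m - (h m).totalDegree)) :=
      aeval_hom (fun i => (hhom n i).1) (hhom m 0).1
    rw [hQh.totalDegree hQ0] at d2
    have d3 := (hhom (m + n) 0).2
    show d ^ (m + n) - (h (m + n)).totalDegree ≤
      (d ^ m - (h m).totalDegree) * (d ^ n - (h n).totalDegree)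
    rw [mul_comm (d ^ m - (h m).totalDegree)]
    omega

end red

end Pool.Agent.H39.TD
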